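import Pool.Agent.Y6.K.Stm

set_option autoImplicit false

/-!
# Project EK: persistence of the decay for the chain (job EK-PERS)
-/

namespace Pool.Agent.Y899.EK

open Set Filter Topology
open Pool.Agent.Y6.K

theorem ch_one {A : ℕ → ℝ} (hA : Chain A) (n : ℕ) : 1 ≤ A n := by
  induction n with
  | zero => exact hA.A0
  | succ n ih => have := hA.lo n; linarith

theorem ch_mono {A : ℕ → ℝ} (hA : Chain A) (n : ℕ) : A n ≤ A (n + 1) := by
  have := hA.lo n
  have := ch_one hA n
  linarith

theorem ch_up {A : ℕ → ℝ} (hA : Chain A) (n : ℕ) : A n ≤ A 0 * 2 ^ n := by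
  induction n with
  | zero => simp
  | succ n ih => have := hA.hi n; rw [pow_succ]; linarith

theorem pert_bound {A : ℕ → ℝ} (hA : Chain A) (k n : ℕ) :
    A n ^ k * φ0 n ≤ A 0 ^ k * Real.exp ((k : ℝ) ^ 2) := by
  have h0 : (0 : ℝ) ≤ A n := zero_le_one.trans (ch_one hA n)
  have h00 : (0 : ℝ) ≤ A 0 := zero_le_one.trans (ch_one hA 0)
  have h1 : A n ^ k ≤ A 0 ^ k * (2 ^ n) ^ k := by
    rw [← mul_pow]
    exact pow_le_pow_left₀ h0 (ch_up hA n) k
  have h2 : ((2 : ℝ) ^ n) ^ k ≤ Real.exp ((n : ℝ) * k) := by
    rw [← pow_mul]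
    have e1 : (2 : ℝ) ≤ Real.exp 1 := by
      have := Real.add_one_le_exp (1 : ℝ); linarith
    have e2 : (2 : ℝ) ^ (n * k) ≤ Real.exp 1 ^ (n * k) := pow_le_pow_left₀ (by norm_num) e1 _
    rw [← Real.exp_nat_mul] at e2
    push_cast at e2
    rwa [mul_one] at e2
  have h3 : φ0 n ≤ Real.exp (-(n : ℝ) ^ 2) := by
    unfold φ0
    have := Real.exp_pos (-(n : ℝ) ^ 2)
    rw [div_le_iff₀ (by norm_num)]
    linarith
  have h4 : 0 ≤ φ0 n := by
    unfold φ0; positivity
  calc A n ^ k * φ0 n ≤ (A 0 ^ k * (2 ^ n) ^ k) * Real.exp (-(n : ℝ) ^ 2) :=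
        mul_le_mul h1 h3 h4 (by positivity)
    _ ≤ (A 0 ^ k * Real.exp ((n : ℝ) * k)) * Real.exp (-(n : ℝ) ^ 2) := by
        gcongr
    _ = A 0 ^ k * Real.exp ((n : ℝ) * k + -(n : ℝ) ^ 2) := by
        rw [Real.exp_add]; ring
    _ ≤ A 0 ^ k * Real.exp ((k : ℝ) ^ 2) := by
        gcongr
        nlinarith [sq_nonneg ((n : ℝ) - k), sq_nonneg ((n : ℝ)), sq_nonneg ((k : ℝ)),
          sq_nonneg ((n : ℝ) - k / 2)]

theorem t_PERS : Pool.Agent.Y6.K.S_PERS := by
  intro A hA k M
  set c : ℝ := A 0 ^ k * Real.exp ((k : ℝ) ^ 2) with hc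
  set B : ℝ := 1 + A 0 ^ k * |M| with hB
  set lam : ℝ := 2 ^ k * |M| + |M| + c + 1 with hlam
  have hA0 : (0 : ℝ) ≤ A 0 := zero_le_one.trans (ch_one hA 0)
  have hc0 : 0 ≤ c := by rw [hc]; positivity
  have hB1 : 1 ≤ B := by
    have : 0 ≤ A 0 ^ k * |M| := by positivity
    rw [hB]; linarith
  have hlam0 : 0 ≤ lam := by rw [hlam]; positivity
  refine ⟨B * Real.exp (lam * 60), ?_⟩
  intro N θ x f hθ hθ60 hsol hx0 hxn hbd
  have hM : 0 ≤ M := by
    have := hbd 0 0 ⟨le_rfl, hθ⟩
    exact (by positivity : 0 ≤ A 0 * |x 0 0|).trans this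
  rw [abs_of_nonneg hM] at hB hlam
  -- the main claim
  have main : ∀ n ≤ N, ∀ t ∈ Icc 0 θ, A n ^ k * |x n t| ≤ B * Real.exp (lam * t) := by
    intro n
    induction n with
    | zero =>
      intro _ t ht
      have h1 := hbd 0 t ht
      have h2 : |x 0 t| ≤ M := by
        have := ch_one hA 0
        have h3 : |x 0 t| ≤ A 0 * |x 0 t| := le_mul_of_one_le_left (abs_nonneg _) this
        linarith
      have h3 : A 0 ^ k * |x 0 t| ≤ A 0 ^ k * M := mul_le_mul_of_nonneg_left h2 (by positivity)
      have h4 : 1 ≤ Real.exp (lam * t) := Real.one_le_exp (mul_nonneg hlam0 ht.1)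
      have h5 : B ≤ B * Real.exp (lam * t) := le_mul_of_one_le_right (by linarith) h4
      linarith
    | succ n ih =>
      intro hn t ht
      have hprev := ih (by omega)
      have hAn : (0 : ℝ) ≤ A n := zero_le_one.trans (ch_one hA n)
      have hAn1 : (0 : ℝ) ≤ A (n + 1) := zero_le_one.trans (ch_one hA (n + 1))
      have hd := hsol.deriv (n + 1) hn
      set g : ℝ → ℝ := fun s => A (n + 1) ^ k * x (n + 1) s with hg
      set g' : ℝ → ℝ := fun s => A (n + 1) ^ k *
        (cvf A (fun m => x m s) (n + 1) + f (n + 1) s) with hg'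
      have hgd : ∀ s ∈ Icc 0 θ, HasDerivWithinAt g (g' s) (Icc 0 θ) s := fun s hs =>
        (hd s hs).const_mul _
      have key := image_norm_le_of_norm_deriv_right_lt_deriv_boundary' (f := g) (f' := g')
        (a := 0) (b := θ) (fun s hs => (hgd s hs).continuousWithinAt)
        (fun s hs => (hgd s ⟨hs.1, hs.2.le⟩).mono_of_mem_nhdsWithin
          (Icc_mem_nhdsGE_of_mem hs))
        (B := fun s => B * Real.exp (lam * s)) (B' := fun s => B * (Real.exp (lam * s) * lam))
        (by
          simp only [hg, hxn n, mul_zero, norm_zero, Real.exp_zero, mul_one]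
          linarith)
        (by fun_prop)
        (fun s _ => by
          have h1 : HasDerivAt (fun s : ℝ => lam * s) lam s := by
            simpa using (hasDerivAt_id s).const_mul lam
          exact ((h1.exp).const_mul B).hasDerivWithinAt)
        (by
          intro s hs hcontact
          have hs' : s ∈ Icc 0 θ := ⟨hs.1, hs.2.le⟩
          set X := B * Real.exp (lam * s) with hX
          have hX1 : 1 ≤ X := by
            have h4 : 1 ≤ Real.exp (lam * s) := Real.one_le_exp (mul_nonneg hlam0 hs.1)
            have h5 : B ≤ B * Real.exp (lam * s) := le_mul_of_one_le_right (by linarith) h4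
            linarith
          have e0 : A (n + 1) ^ k * |x (n + 1) s| = X := by
            have : ‖g s‖ = A (n + 1) ^ k * |x (n + 1) s| := by
              rw [hg]
              simp only [Real.norm_eq_abs, abs_mul]
              rw [abs_of_nonneg (by positivity : (0 : ℝ) ≤ A (n + 1) ^ k)]
            rw [← this]; exact hcontact
          have e1 : cvf A (fun m => x m s) (n + 1) = A n * x n s ^ 2
              - A (n + 1) * x (n + 1) s * x (n + 2) s := by
            simp [cvf]
          -- the three terms
          have t1 : A (n + 1) ^ k * (A n * x n s ^ 2) ≤ 2 ^ k * M * X := by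
            have a1 : A (n + 1) ^ k ≤ 2 ^ k * A n ^ k := by
              rw [← mul_pow]
              exact pow_le_pow_left₀ hAn1 (hA.hi n) k
            have a2 : A n * x n s ^ 2 = (A n * |x n s|) * |x n s| := by
              rw [← sq_abs]; ring
            have a3 : A n * x n s ^ 2 ≤ M * |x n s| := by
              rw [a2]
              exact mul_le_mul_of_nonneg_right (hbd n s hs') (abs_nonneg _)
            have a4 : 0 ≤ A n * x n s ^ 2 := by positivity
            calc A (n + 1) ^ k * (A n * x n s ^ 2) ≤ (2 ^ k * A n ^ k) * (M * |x n s|) :=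
                  mul_le_mul a1 a3 a4 (by positivity)
              _ = 2 ^ k * M * (A n ^ k * |x n s|) := by ring
              _ ≤ 2 ^ k * M * X := mul_le_mul_of_nonneg_left (hprev s hs') (by positivity)
          have t2 : A (n + 1) ^ k * |A (n + 1) * x (n + 1) s * x (n + 2) s| ≤ M * X := by
            have b1 : A (n + 1) * |x (n + 2) s| ≤ M := by
              have := hbd (n + 2) s hs'
              have h2 := ch_mono hA (n + 1)
              exact (mul_le_mul_of_nonneg_right h2 (abs_nonneg _)).trans this
            have b2 : |A (n + 1) * x (n + 1) s * x (n + 2) s|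
                = |x (n + 1) s| * (A (n + 1) * |x (n + 2) s|) := by
              rw [abs_mul, abs_mul, abs_of_nonneg hAn1]; ring
            rw [b2]
            calc A (n + 1) ^ k * (|x (n + 1) s| * (A (n + 1) * |x (n + 2) s|))
                = (A (n + 1) ^ k * |x (n + 1) s|) * (A (n + 1) * |x (n + 2) s|) := by ring
              _ ≤ X * M := by
                  rw [e0]
                  exact mul_le_mul_of_nonneg_left b1 (by linarith)
              _ = M * X := mul_comm _ _
          have t3 : A (n + 1) ^ k * |f (n + 1) s| ≤ c := by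
            have c1 := hsol.pert (n + 1) s hs'
            have c2 := pert_bound hA k (n + 1)
            exact (mul_le_mul_of_nonneg_left c1 (by positivity)).trans c2
          have t4 : ‖g' s‖ ≤ 2 ^ k * M * X + M * X + c := by
            have d1 : g' s = A (n + 1) ^ k * (A n * x n s ^ 2)
                + (-(A (n + 1) ^ k * (A (n + 1) * x (n + 1) s * x (n + 2) s)))
                + A (n + 1) ^ k * f (n + 1) s := by
              rw [hg']
              simp only []
              rw [e1]; ring
            rw [d1, Real.norm_eq_abs]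
            have d2 := abs_add_le (A (n + 1) ^ k * (A n * x n s ^ 2)
                + (-(A (n + 1) ^ k * (A (n + 1) * x (n + 1) s * x (n + 2) s))))
                (A (n + 1) ^ k * f (n + 1) s)
            have d3 := abs_add_le (A (n + 1) ^ k * (A n * x n s ^ 2))
                (-(A (n + 1) ^ k * (A (n + 1) * x (n + 1) s * x (n + 2) s)))
            rw [abs_neg, abs_mul (A (n + 1) ^ k) (A (n + 1) * x (n + 1) s * x (n + 2) s),
              abs_of_nonneg (by positivity : (0 : ℝ) ≤ A (n + 1) ^ k),
              abs_of_nonneg (by positivity : (0 : ℝ) ≤ A (n + 1) ^ k * (A n * x n s ^ 2))] at d3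
            rw [abs_mul (A (n + 1) ^ k) (f (n + 1) s),
              abs_of_nonneg (by positivity : (0 : ℝ) ≤ A (n + 1) ^ k)] at d2
            linarith
          show ‖g' s‖ < B * (Real.exp (lam * s) * lam)
          have t5 : B * (Real.exp (lam * s) * lam) = X * lam := by rw [hX]; ring
          rw [t5, hlam]
          have t6 : c ≤ X * c := le_mul_of_one_le_left hc0 hX1
          nlinarith)
        ht
      have hnorm : ‖g t‖ = A (n + 1) ^ k * |x (n + 1) t| := by
        rw [hg]
        simp only [Real.norm_eq_abs, abs_mul]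
        rw [abs_of_nonneg (by positivity : (0 : ℝ) ≤ A (n + 1) ^ k)]
      rw [← hnorm]
      exact key
  intro n hn t ht
  refine (main n hn t ht).trans ?_
  have h1 : lam * t ≤ lam * 60 := mul_le_mul_of_nonneg_left (ht.2.trans hθ60) hlam0
  have h2 := Real.exp_le_exp.2 h1
  exact mul_le_mul_of_nonneg_left h2 (by linarith)

end Pool.Agent.Y899.EK
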